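import Pool.Agent.helper9.HQ.Spec

set_option autoImplicit false

open scoped Classical

namespace Pool.Agent.helper9.HQ

open Finset
open Pool.Agent.helper65.HC (V IsEig IsTop lam)

theorem EV_E_congr {d : ℕ} {U : Fam d} (hU : Dn U) {f g : Finset (Fin d) → ℝ}
    (h : ∀ x ∈ U, f x = g x) : E U f = E U g := by
  unfold E
  congr 1
  refine Finset.sum_congr rfl fun x hx => Finset.sum_congr rfl fun i _ => ?_
  rw [h x hx, h _ (hU x hx _ (Finset.erase_subset i x))]

theorem EV_N_congr {d : ℕ} {U : Fam d} {f g : Finset (Fin d) → ℝ}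
    (h : ∀ x ∈ U, f x = g x) : N U f = N U g := by
  unfold N
  exact Finset.sum_congr rfl fun x hx => by rw [h x hx]

theorem EV_E_smul {d : ℕ} (U : Fam d) (c : ℝ) (f : Finset (Fin d) → ℝ) :
    E U (fun x => c * f x) = c ^ 2 * E U f := by
  unfold E
  have h : ∑ x ∈ U, ∑ i ∈ x, c * f x * (c * f (x.erase i)) =
      c ^ 2 * ∑ x ∈ U, ∑ i ∈ x, f x * f (x.erase i) := by
    rw [Finset.mul_sum]
    refine Finset.sum_congr rfl fun x _ => ?_
    rw [Finset.mul_sum]
    exact Finset.sum_congr rfl fun i _ => by ring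
  rw [h]
  ring

theorem EV_N_smul {d : ℕ} (U : Fam d) (c : ℝ) (f : Finset (Fin d) → ℝ) :
    N U (fun x => c * f x) = c ^ 2 * N U f := by
  unfold N
  rw [Finset.mul_sum]
  exact Finset.sum_congr rfl fun i _ => by ring

theorem EV_E_abs {d : ℕ} (U : Fam d) (f : Finset (Fin d) → ℝ) :
    E U f ≤ E U (fun x => |f x|) := by
  unfold E
  refine mul_le_mul_of_nonneg_left ?_ (by norm_num)
  refine Finset.sum_le_sum fun x _ => Finset.sum_le_sum fun i _ => ?_
  rw [← abs_mul]
  exact le_abs_self _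

theorem EV_N_abs {d : ℕ} (U : Fam d) (f : Finset (Fin d) → ℝ) :
    N U (fun x => |f x|) = N U f := by
  unfold N
  exact Finset.sum_congr rfl fun i _ => sq_abs _

/-- a maximum -/
theorem EV_max {d : ℕ} {U : Fam d} (hU : Dn U) (hne : U.Nonempty) :
    ∃ (l : ℝ) (f : Finset (Fin d) → ℝ), N U f = 1 ∧ E U f = l ∧ Le U l := by
  obtain ⟨x₀, hx₀⟩ := hne
  let K : Set (Finset (Fin d) → ℝ) := {f | N U f = 1 ∧ ∀ x, x ∉ U → f x = 0}
  have hNc : Continuous (fun f : Finset (Fin d) → ℝ => N U f) := by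
    unfold N
    fun_prop
  have hEc : Continuous (fun f : Finset (Fin d) → ℝ => E U f) := by
    unfold E
    fun_prop
  have hKc : IsClosed K := by
    have h1 : IsClosed {f : Finset (Fin d) → ℝ | N U f = 1} := isClosed_eq hNc continuous_const
    have h2 : IsClosed {f : Finset (Fin d) → ℝ | ∀ x, x ∉ U → f x = 0} := by
      rw [show {f : Finset (Fin d) → ℝ | ∀ x, x ∉ U → f x = 0} =
        ⋂ x : Finset (Fin d), ⋂ _ : x ∉ U, {f | f x = 0} by ext f; simp]
      exact isClosed_iInter fun x => isClosed_iInter fun _ =>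
        isClosed_eq (continuous_apply x) continuous_const
    exact h1.inter h2
  have hKb : Bornology.IsBounded K := by
    refine (Metric.isBounded_closedBall (x := (0 : Finset (Fin d) → ℝ)) (r := 1)).subset ?_
    rintro f ⟨hf1, hf2⟩
    rw [mem_closedBall_zero_iff, pi_norm_le_iff_of_nonneg (by norm_num)]
    intro x
    rw [Real.norm_eq_abs]
    by_cases hx : x ∈ U
    · have h1 : f x ^ 2 ≤ 1 := by
        rw [← hf1]
        unfold N
        exact Finset.single_le_sum (f := fun x => f x ^ 2) (fun i _ => sq_nonneg _) hx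
      exact (sq_le_one_iff_abs_le_one (f x)).1 h1
    · rw [hf2 x hx, abs_zero]
      norm_num
  have hKcomp : IsCompact K := Metric.isCompact_of_isClosed_isBounded hKc hKb
  have hKne : K.Nonempty := by
    refine ⟨fun x => if x = x₀ then 1 else 0, ?_, ?_⟩
    · unfold N
      rw [Finset.sum_eq_single x₀]
      · simp
      · intro b _ hb
        simp [hb]
      · intro h
        exact absurd hx₀ h
    · intro x hx
      show (if x = x₀ then (1 : ℝ) else 0) = 0
      rw [if_neg]
      intro h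
      rw [h] at hx
      exact hx hx₀
  obtain ⟨f, hfK, hmax⟩ := hKcomp.exists_isMaxOn hKne hEc.continuousOn
  refine ⟨E U f, f, hfK.1, rfl, ?_⟩
  intro g
  have hN0 : 0 ≤ N U g := Finset.sum_nonneg fun x _ => sq_nonneg _
  rcases hN0.eq_or_lt with h0 | hpos
  · -- g vanishes on U
    have hg : ∀ x ∈ U, g x = 0 := by
      intro x hx
      have h1 := (Finset.sum_eq_zero_iff_of_nonneg (fun i _ => sq_nonneg _)).1 h0.symm x hx
      exact pow_eq_zero_iff (two_ne_zero) |>.1 h1
    rw [← h0, mul_zero, EV_E_congr hU (g := fun _ => 0) hg]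
    unfold E
    simp
  · obtain ⟨c, hc, hc2⟩ : ∃ c : ℝ, 0 < c ∧ c ^ 2 * N U g = 1 := by
      refine ⟨(Real.sqrt (N U g))⁻¹, inv_pos.2 (Real.sqrt_pos.2 hpos), ?_⟩
      rw [inv_pow, Real.sq_sqrt hpos.le, inv_mul_cancel₀ hpos.ne']
    let g' : Finset (Fin d) → ℝ := fun x => if x ∈ U then c * g x else 0
    have hg' : ∀ x ∈ U, g' x = (fun x => c * g x) x := fun x hx => if_pos hx
    have h1 : N U g' = 1 := by
      rw [EV_N_congr hg', EV_N_smul, hc2]
    have h2 : E U g' = c ^ 2 * E U g := by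
      rw [EV_E_congr hU hg', EV_E_smul]
    have h3 : g' ∈ K := ⟨h1, fun x hx => if_neg hx⟩
    have h4 : E U g' ≤ E U f := hmax h3
    rw [h2] at h4
    have h5 : c ^ 2 * E U g ≤ c ^ 2 * (E U f * N U g) := by
      calc c ^ 2 * E U g ≤ E U f := h4
        _ = c ^ 2 * (E U f * N U g) := by
          rw [show c ^ 2 * (E U f * N U g) = E U f * (c ^ 2 * N U g) by ring, hc2, mul_one]
    exact le_of_mul_le_mul_left h5 (by positivity)

theorem EV_single {d : ℕ} {U : Fam d} {x₀ : Finset (Fin d)} (hx₀ : x₀ ∈ U)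
    (f : Finset (Fin d) → ℝ) (r : ℝ) :
    N U (fun x => f x + r * (if x = x₀ then 1 else 0)) = N U f + 2 * r * f x₀ + r ^ 2 ∧
    E U (fun x => f x + r * (if x = x₀ then 1 else 0)) = E U f +
      2 * r * (∑ i ∈ x₀, f (x₀.erase i) +
        ∑ i ∈ univ.filter (fun i => i ∉ x₀ ∧ insert i x₀ ∈ U), f (insert i x₀)) := by
  constructor
  · unfold N
    have h1 : ∀ x ∈ U, (f x + r * (if x = x₀ then 1 else 0)) ^ 2 =
        f x ^ 2 + (if x = x₀ then (2 * r * f x₀ + r ^ 2) else 0) := by
      intro x _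
      by_cases h : x = x₀
      · rw [if_pos h, if_pos h, h]
        ring
      · rw [if_neg h, if_neg h]
        ring
    rw [Finset.sum_congr rfl h1, Finset.sum_add_distrib, Finset.sum_ite_eq' U x₀, if_pos hx₀]
    ring
  · unfold E
    have hA : ∑ x ∈ U, ∑ i ∈ x, (if x = x₀ then (1 : ℝ) else 0) * f (x.erase i) =
        ∑ i ∈ x₀, f (x₀.erase i) := by
      rw [Finset.sum_eq_single x₀]
      · exact Finset.sum_congr rfl fun i _ => by rw [if_pos rfl, one_mul]
      · intro b _ hb
        exact Finset.sum_eq_zero fun i _ => by rw [if_neg hb, zero_mul]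
      · intro h
        exact absurd hx₀ h
    have hB : ∑ x ∈ U, ∑ i ∈ x, f x * (if x.erase i = x₀ then (1 : ℝ) else 0) =
        ∑ i ∈ univ.filter (fun i => i ∉ x₀ ∧ insert i x₀ ∈ U), f (insert i x₀) := by
      have h1 : ∑ x ∈ U, ∑ i ∈ x, f x * (if x.erase i = x₀ then (1 : ℝ) else 0) =
          ∑ x ∈ U, ∑ i : Fin d, if i ∈ x ∧ x.erase i = x₀ then f x else 0 := by
        refine Finset.sum_congr rfl fun x _ => ?_
        rw [← Finset.sum_filter_add_sum_filter_not Finset.univ (fun i => i ∈ x)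
          (fun i => if i ∈ x ∧ x.erase i = x₀ then f x else 0)]
        have e1 : ∑ i ∈ univ.filter (fun i => ¬ i ∈ x), (if i ∈ x ∧ x.erase i = x₀ then f x else 0) = 0 :=
          Finset.sum_eq_zero fun i hi => if_neg fun h => (Finset.mem_filter.1 hi).2 h.1
        have e2 : univ.filter (fun i => i ∈ x) = x := by
          ext i
          simp
        rw [e1, add_zero, e2]
        refine Finset.sum_congr rfl fun i hi => ?_
        by_cases h : x.erase i = x₀
        · rw [if_pos h, if_pos ⟨hi, h⟩, mul_one]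
        · rw [if_neg h, if_neg fun h' => h h'.2, mul_zero]
      rw [h1, Finset.sum_comm, Finset.sum_filter]
      refine Finset.sum_congr rfl fun i _ => ?_
      by_cases h : i ∉ x₀ ∧ insert i x₀ ∈ U
      · rw [if_pos h, Finset.sum_eq_single (insert i x₀)]
        · rw [if_pos ⟨Finset.mem_insert_self _ _, Finset.erase_insert h.1⟩]
        · intro b _ hb
          rw [if_neg]
          rintro ⟨h2, h3⟩
          apply hb
          rw [← h3, Finset.insert_erase h2]
        · intro h'
          exact absurd h.2 h'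
      · rw [if_neg h]
        refine Finset.sum_eq_zero fun x hx => if_neg ?_
        rintro ⟨h2, h3⟩
        apply h
        rw [← h3]
        refine ⟨Finset.notMem_erase i x, ?_⟩
        rw [Finset.insert_erase h2]
        exact hx
    have hC : ∑ x ∈ U, ∑ i ∈ x, (f x + r * (if x = x₀ then 1 else 0)) *
        (f (x.erase i) + r * (if x.erase i = x₀ then 1 else 0)) =
        ∑ x ∈ U, ∑ i ∈ x, f x * f (x.erase i) +
        r * (∑ x ∈ U, ∑ i ∈ x, (if x = x₀ then (1 : ℝ) else 0) * f (x.erase i)) +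
        r * (∑ x ∈ U, ∑ i ∈ x, f x * (if x.erase i = x₀ then (1 : ℝ) else 0)) := by
      rw [Finset.mul_sum, Finset.mul_sum, ← Finset.sum_add_distrib, ← Finset.sum_add_distrib]
      refine Finset.sum_congr rfl fun x _ => ?_
      rw [Finset.mul_sum, Finset.mul_sum, ← Finset.sum_add_distrib, ← Finset.sum_add_distrib]
      refine Finset.sum_congr rfl fun i hi => ?_
      by_cases h : x = x₀
      · have h' : x.erase i ≠ x₀ := by
          rw [← h]
          intro h2
          have := Finset.notMem_erase i x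
          rw [h2] at this
          exact this hi
        rw [if_neg h']
        ring
      · rw [if_neg h]
        ring
    rw [hC, hA, hB]
    ring

theorem EV : EV_stmt := by
  intro d U hU hne
  obtain ⟨l, f₀, h1, h2, hLe⟩ := EV_max hU hne
  have hN : N U (fun x => |f₀ x|) = 1 := by rw [EV_N_abs, h1]
  have hE : E U (fun x => |f₀ x|) = l := by
    apply le_antisymm
    · have := hLe (fun x => |f₀ x|)
      rwa [hN, mul_one] at this
    · rw [← h2]
      exact EV_E_abs U f₀
  have hl : 0 ≤ l := by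
    obtain ⟨x₀, hx₀⟩ := hne
    obtain ⟨e1, e2⟩ := EV_single hx₀ (fun _ => (0 : ℝ)) 1
    have e3 := hLe (fun x => (0 : ℝ) + 1 * (if x = x₀ then 1 else 0))
    rw [e1, e2] at e3
    have z1 : N U (fun _ => (0 : ℝ)) = 0 := by
      unfold N
      simp
    have z2 : E U (fun _ => (0 : ℝ)) = 0 := by
      unfold E
      simp
    rw [z1, z2] at e3
    simp only [Finset.sum_const_zero, add_zero, mul_zero, zero_add, mul_one, one_pow] at e3
    exact e3
  refine ⟨l, fun x => |f₀ x|, hl, ⟨fun x => abs_nonneg _, hN, ?_, hLe⟩⟩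
  intro x₀ hx₀
  set A : ℝ := ∑ i ∈ x₀, |f₀ (x₀.erase i)| +
        ∑ i ∈ univ.filter (fun i => i ∉ x₀ ∧ insert i x₀ ∈ U), |f₀ (insert i x₀)| with hA
  have key : ∀ r : ℝ, 0 ≤ 2 * r * (l * |f₀ x₀| - A) + l * r ^ 2 := by
    intro r
    obtain ⟨e1, e2⟩ := EV_single hx₀ (fun x => |f₀ x|) r
    have e3 := hLe (fun x => |f₀ x| + r * (if x = x₀ then 1 else 0))
    rw [e1, e2, hN, hE, ← hA] at e3
    nlinarith
  show l * |f₀ x₀| = A
  have hl1 : 0 < l + 1 := by linarith
  have h3 := key (-(l * |f₀ x₀| - A) / (l + 1))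
  have h4 : 2 * (-(l * |f₀ x₀| - A) / (l + 1)) * (l * |f₀ x₀| - A) +
      l * (-(l * |f₀ x₀| - A) / (l + 1)) ^ 2 =
      -((l * |f₀ x₀| - A) ^ 2 * ((l + 2) / (l + 1) ^ 2)) := by
    field_simp
    ring
  rw [h4] at h3
  have h5 : 0 < (l + 2) / (l + 1) ^ 2 := by positivity
  have h6 : (l * |f₀ x₀| - A) ^ 2 ≤ 0 := by
    by_contra hcon
    push Not at hcon
    have := mul_pos hcon h5
    linarith
  have h7 : l * |f₀ x₀| - A = 0 := by
    have := le_antisymm h6 (sq_nonneg _)
    exact pow_eq_zero_iff (two_ne_zero) |>.1 this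
  linarith

end Pool.Agent.helper9.HQ
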